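import Mathlib

/-!
Helper lemmas for problem MP_85fffe_co (maximally repeated patterns under translation).

For `n ≥ 1` let `X n = {0, ..., 4 n} \ {2 n}`. For every subset `U` of `{1, ..., n - 1}` the set
`pat n U = {a ≤ 3 n : a + t ≠ 2 n for every t ∈ U ∪ {0, n}}` is a maximally repeated pattern of
`X n`, all these patterns have minimum `0`, and they are pairwise different.
-/

set_option autoImplicit false

namespace Pool.Agent.MP85fffe

open Finset

/-- The point set `{0, ..., 4 n} \ {2 n}`, as natural numbers. -/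
def XN (n : ℕ) : Finset ℕ := (range (4 * n + 1)).erase (2 * n)

/-- The pattern attached to `U`, as natural numbers. -/
def patN (n : ℕ) (U : Finset ℕ) : Finset ℕ :=
  {a ∈ range (3 * n + 1) | ∀ t ∈ (insert 0 (insert n U) : Finset ℕ), a + t ≠ 2 * n}

/-- The point set as real numbers. -/
noncomputable def XR (n : ℕ) : Finset ℝ := (XN n).image (fun k : ℕ => (k : ℝ))

/-- The pattern as real numbers. -/
noncomputable def patR (n : ℕ) (U : Finset ℕ) : Finset ℝ := (patN n U).image (fun k : ℕ => (k : ℝ))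

lemma mem_XN {n k : ℕ} : k ∈ XN n ↔ k ≤ 4 * n ∧ k ≠ 2 * n := by
  simp only [XN, mem_erase, mem_range]
  omega

lemma mem_patN {n : ℕ} {U : Finset ℕ} {a : ℕ} :
    a ∈ patN n U ↔ a ≤ 3 * n ∧ ∀ t ∈ (insert 0 (insert n U) : Finset ℕ), a + t ≠ 2 * n := by
  simp only [patN, mem_filter, mem_range]
  constructor
  · rintro ⟨h1, h2⟩
    exact ⟨by omega, h2⟩
  · rintro ⟨h1, h2⟩
    exact ⟨by omega, h2⟩

lemma mem_XR {n : ℕ} {x : ℝ} : x ∈ XR n ↔ ∃ k : ℕ, (k ≤ 4 * n ∧ k ≠ 2 * n) ∧ (k : ℝ) = x := by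
  simp only [XR, mem_image, mem_XN]

lemma mem_patR {n : ℕ} {U : Finset ℕ} {x : ℝ} :
    x ∈ patR n U ↔ ∃ a : ℕ, (a ≤ 3 * n ∧ ∀ t ∈ (insert 0 (insert n U) : Finset ℕ), a + t ≠ 2 * n) ∧
      (a : ℝ) = x := by
  simp only [patR, mem_image, mem_patN]

lemma cast_mem_XR {n k : ℕ} : (k : ℝ) ∈ XR n ↔ (k ≤ 4 * n ∧ k ≠ 2 * n) := by
  rw [mem_XR]
  constructor
  · rintro ⟨j, hj, hjk⟩
    have : j = k := by exact_mod_cast hjk
    subst this
    exact hj
  · intro h
    exact ⟨k, h, rfl⟩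

lemma cast_mem_patR {n : ℕ} {U : Finset ℕ} {a : ℕ} : (a : ℝ) ∈ patR n U ↔
    (a ≤ 3 * n ∧ ∀ t ∈ (insert 0 (insert n U) : Finset ℕ), a + t ≠ 2 * n) := by
  rw [mem_patR]
  constructor
  · rintro ⟨j, hj, hjk⟩
    have : j = a := by exact_mod_cast hjk
    subst this
    exact hj
  · intro h
    exact ⟨a, h, rfl⟩

lemma card_XR (n : ℕ) : (XR n).card = 4 * n := by
  rw [XR, card_image_of_injective _ Nat.cast_injective, XN, card_erase_of_mem]
  · simp
  · simp only [mem_range]; omega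

/-- Translating the pattern of `U` by an element of `U ∪ {0, n}` stays inside the point set. -/
lemma patR_translate {n : ℕ} {U : Finset ℕ} (hU : U ⊆ Ico 1 n) {t : ℕ}
    (ht : t ∈ (insert 0 (insert n U) : Finset ℕ)) :
    (patR n U).image (· + (t : ℝ)) ⊆ XR n := by
  intro x hx
  rw [mem_image] at hx
  obtain ⟨y, hy, rfl⟩ := hx
  rw [mem_patR] at hy
  obtain ⟨a, ⟨ha, hat⟩, rfl⟩ := hy
  have htn : t ≤ n := by
    simp only [mem_insert] at ht
    rcases ht with rfl | rfl | h
    · omega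
    · exact le_rfl
    · have := hU h
      simp only [mem_Ico] at this
      omega
  have : ((a : ℝ) + (t : ℝ)) = ((a + t : ℕ) : ℝ) := by push_cast; rfl
  rw [this, cast_mem_XR]
  exact ⟨by omega, hat t ht⟩

lemma zero_mem_patR {n : ℕ} (hn : 1 ≤ n) {U : Finset ℕ} (hU : U ⊆ Ico 1 n) :
    (0 : ℝ) ∈ patR n U := by
  have h : ((0 : ℕ) : ℝ) ∈ patR n U := by
    rw [cast_mem_patR]
    refine ⟨by omega, ?_⟩
    intro t ht
    simp only [mem_insert] at ht
    rcases ht with rfl | rfl | h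
    · omega
    · omega
    · have := hU h
      simp only [mem_Ico] at this
      omega
  simpa using h

lemma nonneg_of_mem_patR {n : ℕ} {U : Finset ℕ} {x : ℝ} (hx : x ∈ patR n U) : 0 ≤ x := by
  rw [mem_patR] at hx
  obtain ⟨a, _, rfl⟩ := hx
  positivity

/-- The pattern of `U` is contained in the point set. -/
lemma patR_subset {n : ℕ} {U : Finset ℕ} (hU : U ⊆ Ico 1 n) : patR n U ⊆ XR n := by
  intro x hx
  have h := patR_translate (n := n) hU (t := 0) (by simp)
  apply h
  rw [mem_image]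
  exact ⟨x, hx, by simp⟩

/-- The pattern of `U` is repeated. -/
lemma patR_repeated {n : ℕ} (hn : 1 ≤ n) {U : Finset ℕ} (hU : U ⊆ Ico 1 n) :
    ∃ t : ℝ, t ≠ 0 ∧ (patR n U).image (· + t) ⊆ XR n := by
  refine ⟨(n : ℝ), ?_, patR_translate hU (by simp)⟩
  have : (0 : ℝ) < n := by exact_mod_cast hn
  exact this.ne'

/-- The pattern of `U` is maximally repeated. -/
lemma patR_maximal {n : ℕ} {U : Finset ℕ} (hU : U ⊆ Ico 1 n) (B : Finset ℝ)
    (hB : patR n U ⊂ B) :
    ¬ (∀ t : ℝ, (patR n U).image (· + t) ⊆ XR n → B.image (· + t) ⊆ XR n) := by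
  intro h
  obtain ⟨hsub, hnot⟩ := hB
  apply hnot
  intro b hb
  have key : ∀ t : ℕ, t ∈ (insert 0 (insert n U) : Finset ℕ) → b + (t : ℝ) ∈ XR n := by
    intro t ht
    apply h (t : ℝ) (patR_translate hU ht)
    rw [mem_image]
    exact ⟨b, hb, rfl⟩
  have h0 := key 0 (by simp)
  simp only [Nat.cast_zero, add_zero] at h0
  rw [mem_XR] at h0
  obtain ⟨k, _, rfl⟩ := h0
  rw [cast_mem_patR]
  have key' : ∀ t : ℕ, t ∈ (insert 0 (insert n U) : Finset ℕ) → k + t ≤ 4 * n ∧ k + t ≠ 2 * n := by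
    intro t ht
    have := key t ht
    have e : ((k : ℝ) + (t : ℝ)) = ((k + t : ℕ) : ℝ) := by push_cast; rfl
    rw [e, cast_mem_XR] at this
    exact this
  refine ⟨?_, fun t ht => (key' t ht).2⟩
  have := (key' n (by simp)).1
  omega

/-- Two of the patterns that are translates of each other are equal. -/
lemma patR_translate_eq {n : ℕ} (hn : 1 ≤ n) {U V : Finset ℕ} (hU : U ⊆ Ico 1 n)
    (hV : V ⊆ Ico 1 n) {t : ℝ} (h : patR n V = (patR n U).image (· + t)) :
    patR n U = patR n V := by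
  have h1 : 0 ≤ t := by
    have : (0 : ℝ) + t ∈ patR n V := by
      rw [h, mem_image]
      exact ⟨0, zero_mem_patR hn hU, rfl⟩
    simpa using nonneg_of_mem_patR this
  have h2 : t ≤ 0 := by
    have : (0 : ℝ) ∈ (patR n U).image (· + t) := by
      rw [← h]
      exact zero_mem_patR hn hV
    rw [mem_image] at this
    obtain ⟨y, hy, hyt⟩ := this
    have := nonneg_of_mem_patR hy
    linarith
  have h3 : t = 0 := le_antisymm h2 h1
  subst h3
  rw [h]
  ext x
  simp

/-- The pattern determines `U`. -/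
lemma patR_injOn {n : ℕ} {U V : Finset ℕ} (hU : U ⊆ Ico 1 n)
    (hV : V ⊆ Ico 1 n) (h : patR n U = patR n V) : U = V := by
  have main : ∀ W W' : Finset ℕ, W ⊆ Ico 1 n → W' ⊆ Ico 1 n → patR n W = patR n W' → W ⊆ W' := by
    intro W W' hW hW' hWW t ht
    have htI := hW ht
    simp only [mem_Ico] at htI
    by_contra hcon
    have hmem : ((2 * n - t : ℕ) : ℝ) ∈ patR n W' := by
      rw [cast_mem_patR]
      refine ⟨by omega, ?_⟩
      intro s hs
      simp only [mem_insert] at hs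
      rcases hs with rfl | rfl | hs
      · omega
      · omega
      · intro heq
        have : s = t := by omega
        subst this
        exact hcon hs
    rw [← hWW, cast_mem_patR] at hmem
    exact hmem.2 t (by simp [ht]) (by omega)
  exact Finset.Subset.antisymm (main U V hU hV h) (main V U hV hU h.symm)

/-- The family of all the patterns. -/
noncomputable def fam (n : ℕ) : Finset (Finset ℝ) := (Ico 1 n).powerset.image (patR n)

lemma card_fam (n : ℕ) : (fam n).card = 2 ^ (n - 1) := by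
  rw [fam, card_image_of_injOn]
  · rw [card_powerset]
    simp
  · intro U hU V hV h
    simp only [coe_powerset, Set.mem_preimage, Set.mem_powerset_iff, coe_subset] at hU hV
    exact patR_injOn hU hV h

lemma mem_fam {n : ℕ} {A : Finset ℝ} : A ∈ fam n ↔ ∃ U : Finset ℕ, U ⊆ Ico 1 n ∧ patR n U = A := by
  simp only [fam, mem_image, mem_powerset]

/-- For every constant `C` there is `n ≥ 1` with `C * (4 * n) < 2 ^ (n - 1)`. -/
lemma exists_large (C : ℕ) : ∃ n : ℕ, 1 ≤ n ∧ C * (4 * n) < 2 ^ (n - 1) := by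
  refine ⟨2 * (C + 8) + 1, by omega, ?_⟩
  have h1 : 2 * (C + 8) + 1 - 1 = (C + 8) + (C + 8) := by omega
  rw [h1, pow_add]
  have h2 : C + 8 < 2 ^ (C + 8) := Nat.lt_two_pow_self
  have h3 : ∀ k : ℕ, 8 * (k + 8) + 4 < 2 ^ (k + 8) := by
    intro k
    induction k with
    | zero => norm_num
    | succ k ih =>
      have : 2 ^ (k + 1 + 8) = 2 * 2 ^ (k + 8) := by ring
      rw [this]
      omega
  have h4 := h3 C
  calc C * (4 * (2 * (C + 8) + 1)) = C * (8 * (C + 8) + 4) := by ring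
    _ ≤ (C + 8) * (8 * (C + 8) + 4) := Nat.mul_le_mul_right _ (by omega)
    _ < 2 ^ (C + 8) * 2 ^ (C + 8) := Nat.mul_lt_mul'' h2 h4

end Pool.Agent.MP85fffe
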